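import Pool.Agent.H54.KN.Nik

/-! There are continuum many pairwise Katetov-incomparable non-pathological ideals on `ω` with
the Nikodym property that are not totally bounded. -/

namespace Pool.Agent.Results.MP_64e5f1_lc.ContinuumManyNikodym

open Set Pool.Agent.H54.KN

/-- The index set attached to a `0-1` sequence. -/
def idx (x : ℕ → Bool) : Set ℕ := {k | x (Nat.unpair (k / 2)).1 = decide (k % 2 = 1)}

theorem mem_idx (x : ℕ → Bool) (n m : ℕ) (b : Bool) :
    2 * Nat.pair n m + (if b then 1 else 0) ∈ idx x ↔ x n = b := by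
  unfold idx
  rw [mem_ofPred_eq]
  have h1 : (2 * Nat.pair n m + (if b then 1 else 0)) / 2 = Nat.pair n m := by
    split_ifs <;> omega
  have h2 : decide ((2 * Nat.pair n m + (if b then 1 else 0)) % 2 = 1) = b := by
    cases b <;> simp [Nat.add_mod]
  rw [h1, h2, Nat.unpair_pair]

theorem idx_diff {x y : ℕ → Bool} (h : x ≠ y) : (idx x \ idx y).Infinite := by
  obtain ⟨n, hn⟩ := Function.ne_iff.1 h
  refine infinite_of_injective_forall_mem
    (f := fun m => 2 * Nat.pair n m + (if x n then 1 else 0)) ?_ ?_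
  · intro m m' hm
    simp only at hm
    have h1 : Nat.pair n m = Nat.pair n m' := by omega
    exact (Nat.pair_eq_pair.1 h1).2
  · intro m
    exact ⟨(mem_idx x n m (x n)).2 rfl, fun h1 => hn ((mem_idx y n m (x n)).1 h1).symm⟩

theorem idx_infinite (x : ℕ → Bool) : (idx x).Infinite := by
  have h : x ≠ fun n => !x n := fun h => by
    have := congrFun h 0
    simp at this
  exact (idx_diff h).mono sdiff_subset

theorem result : ∃ F : Set (Set (Set ℕ)), Cardinal.mk F = Cardinal.continuum ∧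
    (∀ I ∈ F, IsIdeal I ∧ IsNonpathologicalIdeal I ∧ HasNikodymProperty (idealAlgebra I) ∧
      ¬ IsTotallyBounded I) ∧
    (∀ I ∈ F, ∀ J ∈ F, I ≠ J → ¬ KatetovLE I J ∧ ¬ KatetovLE J I) := by
  obtain ⟨s, q, M, h⟩ := sys_exists
  have hK : ∀ x y : ℕ → Bool, x ≠ y → ¬ KatetovLE (idl M (idx x)) (idl M (idx y)) :=
    fun x y hxy => h.katetov _ _ (idx_infinite x) (idx_diff hxy.symm)
  have hinj : Function.Injective fun x : ℕ → Bool => idl M (idx x) := by
    intro x y hxy
    by_contra hne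
    have hxy' : idl M (idx x) = idl M (idx y) := hxy
    refine hK x y hne ⟨id, fun A hA => ?_⟩
    rw [preimage_id, ← hxy']
    exact hA
  refine ⟨range fun x : ℕ → Bool => idl M (idx x), ?_, ?_, ?_⟩
  · rw [Cardinal.mk_range_eq _ hinj]
    simp
  · rintro _ ⟨x, rfl⟩
    have hx := idx_infinite x
    exact ⟨h.isIdeal _ hx, h.nonpath_idl _, h.nikodym _ hx, h.notTB _ hx⟩
  · rintro _ ⟨x, rfl⟩ _ ⟨y, rfl⟩ hne
    have hxy : x ≠ y := fun hxy => hne (by rw [hxy])
    exact ⟨hK x y hxy, hK y x hxy.symm⟩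

end Pool.Agent.Results.MP_64e5f1_lc.ContinuumManyNikodym
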